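import Mathlib

/-!
# Lower bounds for the dominating number of a singular cardinal

Let `lam` be a singular cardinal.

* If `mu ^ cf lam < lam` for every `mu < lam` (for instance if `lam` is a strong limit cardinal, or
  if `lam = ℵ_ω` and the continuum is smaller than `ℵ_ω`), then the dominating number of `lam` is at
  least `lam ^ cf lam`.  For a strong limit cardinal this is `2 ^ lam`.
* Without any hypothesis the dominating number of `lam` is at least the cofinality of every product
  of at most `lam` regular cardinals between `cf lam` and `lam`, modulo the ideal of the sets of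
  indices on which the factors are bounded below `lam`.

It is enough that the family dominates the functions with values in one cofinal subset of `lam`.

The second part rests on a guessing function: for a regular cardinal `th > cf lam` fix for every
`d < th` of cofinality `cf lam` a cofinal sequence `c d`, and let `G x d` be the least index `s`
with `x < c d s`.  If `Z` is unbounded in `th` then the values `G z d`, `z ∈ Z`, are unbounded for
every limit point `d` of `Z` of cofinality `cf lam`.
-/

set_option autoImplicit false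

open Cardinal Ordinal Set

universe u

namespace Pool.Agent.Results.MP_ae46c1_lc.SingularPowerBound

/-- `f ≤* g` for functions from `lam` to `lam`: the set of the points `a` with `g a < f a` has
cardinality less than `lam`. -/
def LeStar (lam : Cardinal.{u}) (f g : lam.ord.ToType → lam.ord.ToType) : Prop :=
  #{a : lam.ord.ToType | g a < f a} < lam

/-- `D` dominates the functions from `lam` to `lam` all of whose values are in `C`. -/
def Dominates (lam : Cardinal.{u}) (C : Set lam.ord.ToType)
    (D : Set (lam.ord.ToType → lam.ord.ToType)) : Prop :=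
  ∀ f : lam.ord.ToType → lam.ord.ToType, (∀ a, f a ∈ C) → ∃ g ∈ D, LeStar lam f g

/-- The least cardinality of a family which dominates all functions from `lam` to `lam` with values
in the set `C`. -/
noncomputable def dominatingNumberOn (lam : Cardinal.{u}) (C : Set lam.ord.ToType) :
    Cardinal.{u} :=
  sInf {c | ∃ D : Set (lam.ord.ToType → lam.ord.ToType), Dominates lam C D ∧ #D = c}

/-- The dominating number of `lam`: the least cardinality of a family which dominates all
functions from `lam` to `lam`. -/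
noncomputable def dominatingNumber (lam : Cardinal.{u}) : Cardinal.{u} :=
  dominatingNumberOn lam Set.univ

/-- The set `E` of functions in the product of the `th i` is cofinal in the product modulo the
ideal of the sets of indices on which `th` is bounded below `lam`. -/
def CofinalInProduct (lam : Cardinal.{u}) {I : Type u} (th : I → Cardinal.{u})
    (E : Set (∀ i, (th i).ord.ToType)) : Prop :=
  ∀ h : ∀ i, (th i).ord.ToType, ∃ e ∈ E, ∃ nu < lam, ∀ i, nu < th i → h i ≤ e i

/-- The cofinality of the product of the cardinals `th i` modulo the ideal of the sets of indices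
on which `th` is bounded below `lam`. -/
noncomputable def productCofinality (lam : Cardinal.{u}) {I : Type u} (th : I → Cardinal.{u}) :
    Cardinal.{u} :=
  sInf {c | ∃ E : Set (∀ i, (th i).ord.ToType), CofinalInProduct lam th E ∧ #E = c}

/-- Choice of a preimage. -/
noncomputable def pre {I X : Type u} [Nonempty I] (s : I → X) (x : X) : I :=
  open Classical in if h : ∃ k, s k = x then h.choose else Classical.arbitrary I

theorem pre_apply {I X : Type u} [Nonempty I] {s : I → X} (hs : Function.Injective s) (k : I) :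
    pre s (s k) = k := by
  have h : ∃ k', s k' = s k := ⟨k, rfl⟩
  unfold pre
  rw [dif_pos h]
  exact hs h.choose_spec

theorem exists_le_mk_Iio {lam kap : Cardinal.{u}} (h : kap < lam) :
    ∃ x : lam.ord.ToType, kap ≤ #(Iio x) := by
  let f := Ordinal.principalSegToType (ord_lt_ord.2 h)
  refine ⟨f.top, ?_⟩
  have : #(kap.ord.ToType) ≤ #(Iio f.top) :=
    mk_le_of_injective (f := fun y => (⟨f y, f.lt_top y⟩ : Iio f.top)) (by
      intro a b hab
      exact f.injective (Subtype.ext_iff.1 hab))
  simpa using this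

/-- A cofinal subset contains a cofinal subset of cardinality the cofinality. -/
theorem exists_small_cofinal {lam : Cardinal.{u}} {C : Set lam.ord.ToType} (hC : IsCofinal C) :
    ∃ S : Set lam.ord.ToType, S ⊆ C ∧ IsCofinal S ∧ #S = lam.ord.cof := by
  obtain ⟨T, hT, hTc⟩ := Order.exists_cof_eq lam.ord.ToType
  rw [Ordinal.cof_toType] at hTc
  choose c hcC hc using hC
  refine ⟨range (fun t : T => c t), ?_, ?_, ?_⟩
  · rintro _ ⟨t, rfl⟩
    exact hcC t
  · intro x
    obtain ⟨y, hy, hxy⟩ := hT x
    exact ⟨c y, ⟨⟨y, hy⟩, rfl⟩, hxy.trans (hc y)⟩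
  · apply le_antisymm
    · exact mk_range_le.trans hTc.le
    · rw [← Ordinal.cof_toType]
      apply Order.cof_le
      intro x
      obtain ⟨y, hy, hxy⟩ := hT x
      exact ⟨c y, ⟨⟨y, hy⟩, rfl⟩, hxy.trans (hc y)⟩

theorem nonempty_toType {lam : Cardinal.{u}} (hinf : ℵ₀ ≤ lam) : Nonempty lam.ord.ToType := by
  rw [← mk_ne_zero_iff, mk_ord_toType]
  exact (aleph0_pos.trans_le hinf).ne'

theorem exists_lt_of_isCofinal {lam : Cardinal.{u}} (hinf : ℵ₀ ≤ lam) {S : Set lam.ord.ToType}
    (hS : IsCofinal S) (x : lam.ord.ToType) : ∃ k : S, x < (k : lam.ord.ToType) := by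
  have : NoMaxOrder lam.ord.ToType := by
    refine ⟨fun a => ?_⟩
    by_contra hcon
    push Not at hcon
    have h1 : #(Iio a) < lam := mk_Iio_toType_ord_lt a
    obtain ⟨x, hx⟩ := exists_le_mk_Iio (lam := lam) (kap := #(Iio a) + 1)
      (add_lt_of_lt hinf h1 (one_lt_aleph0.trans_le hinf))
    have h2 : #(Iio x) ≤ #(Iio a) := mk_le_mk_of_subset (Iio_subset_Iio (hcon x))
    have h3 : lam ≤ #(Iio a) + 1 := by
      have : (Set.univ : Set lam.ord.ToType) ⊆ Iio a ∪ {a} := by
        intro y _
        rcases lt_or_eq_of_le (hcon y) with h | h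
        · exact Or.inl h
        · exact Or.inr h
      calc lam = #(lam.ord.ToType) := (mk_ord_toType lam).symm
        _ = #(Set.univ : Set lam.ord.ToType) := mk_univ.symm
        _ ≤ #(Iio a ∪ {a} : Set lam.ord.ToType) := mk_le_mk_of_subset this
        _ ≤ #(Iio a) + #({a} : Set lam.ord.ToType) := mk_union_le _ _
        _ = #(Iio a) + 1 := by simp
    exact absurd (add_lt_of_lt hinf h1 (one_lt_aleph0.trans_le hinf)) (not_lt.2 h3)
  obtain ⟨x', hx'⟩ := exists_gt x
  obtain ⟨y, hy, hxy⟩ := hS x'
  exact ⟨⟨y, hy⟩, hx'.trans_le hxy⟩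

/-- Core of the argument: a family which dominates the functions with values in a cofinal set has
at least `lam ^ cf lam` members. -/
theorem le_mk_of_dominates {lam : Cardinal.{u}} (hs : lam.IsSingular)
    (hcl : ∀ mu < lam, mu ^ lam.ord.cof < lam) {C : Set lam.ord.ToType} (hC : IsCofinal C)
    {D : Set (lam.ord.ToType → lam.ord.ToType)} (hD : Dominates lam C D) :
    lam ^ lam.ord.cof ≤ #D := by
  classical
  have hinf : ℵ₀ ≤ lam := hs.aleph0_le
  have hlt : ℵ₀ < lam := by
    refine lt_of_le_of_ne hinf ?_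
    rintro rfl
    exact not_isSingular_aleph0 hs
  have hne : Nonempty lam.ord.ToType := nonempty_toType hinf
  obtain ⟨S, hSC, hS, hSc⟩ := exists_small_cofinal hC
  have hmu : #S < lam := hSc ▸ hs.cof_ord_lt
  have hSinf : ℵ₀ ≤ #S := by
    rw [hSc]
    exact aleph0_le_cof.2 (isSuccLimit_ord hinf)
  have hSne : Nonempty S := by
    obtain ⟨x⟩ := hne
    obtain ⟨y, hy, -⟩ := hS x
    exact ⟨⟨y, hy⟩⟩
  rw [← hSc] at hcl ⊢
  have hcof : ∀ x : lam.ord.ToType, ∃ k : S, x < (k : lam.ord.ToType) :=
    exists_lt_of_isCofinal hinf hS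
  -- the block sizes
  let th : S → Cardinal.{u} := fun i => (max (#(Iio (i : lam.ord.ToType))) (max (#S) ℵ₀)) ^ #S
  have hexp : ∀ i : S, max (#(Iio (i : lam.ord.ToType))) (max (#S) ℵ₀) < lam := fun i =>
    max_lt (mk_Iio_toType_ord_lt _) (max_lt hmu hlt)
  have hth : ∀ i, th i < lam := fun i => hcl _ (hexp i)
  have hself : ∀ i : S, max (#(Iio (i : lam.ord.ToType))) (max (#S) ℵ₀) ≤ th i := fun i =>
    self_le_power _ (one_le_aleph0.trans hSinf)
  have hthpow : ∀ i, th i ^ #S = th i := by
    intro i
    show ((max (#(Iio (i : lam.ord.ToType))) (max (#S) ℵ₀)) ^ #S) ^ #S = _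
    rw [← power_mul, mul_eq_self hSinf]
  have hSth : ∀ i, #S ≤ th i := fun i =>
    ((le_max_left _ _).trans (le_max_right _ _)).trans (hself i)
  have h0th : ∀ i, ℵ₀ ≤ th i := fun i =>
    ((le_max_right _ _).trans (le_max_right _ _)).trans (hself i)
  have hsup : ∀ kap : Cardinal.{u}, kap < lam → ∃ i, kap < th i := by
    intro kap hk
    obtain ⟨x, hx⟩ := exists_le_mk_Iio (hs.isSuccLimit.succ_lt hk)
    obtain ⟨i, hi⟩ := hcof x
    refine ⟨i, lt_of_lt_of_le (Order.lt_succ kap) ?_⟩
    exact (hx.trans ((mk_le_mk_of_subset (Iio_subset_Iio hi.le)).trans (le_max_left _ _))).trans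
      (hself i)
  -- the product of the block sizes is at least `lam ^ cf lam`
  have hprod : lam ^ #S ≤ #(∀ i : S, (th i).out) := by
    have h1 : lam ≤ Cardinal.sum (fun i : S => #(Iio (i : lam.ord.ToType))) := by
      have : (Set.univ : Set lam.ord.ToType) ⊆ ⋃ i : S, Iio (i : lam.ord.ToType) := by
        intro x _
        obtain ⟨k, hk⟩ := hcof x
        exact mem_iUnion.2 ⟨k, hk⟩
      calc lam = #(lam.ord.ToType) := (mk_ord_toType lam).symm
        _ = #(Set.univ : Set lam.ord.ToType) := mk_univ.symm
        _ ≤ #(⋃ i : S, Iio (i : lam.ord.ToType)) := mk_le_mk_of_subset this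
        _ ≤ Cardinal.sum (fun i : S => #(Iio (i : lam.ord.ToType))) := mk_iUnion_le_sum_mk
    have hne' : ∀ j, Nonempty (th j).out := fun j => by
      rw [← mk_ne_zero_iff, mk_out]
      exact (aleph0_pos.trans_le (h0th j)).ne'
    have hle : ∀ i, th i ≤ #(∀ i : S, (th i).out) := by
      intro i
      let d : ∀ j : S, (th j).out := fun j => (hne' j).some
      calc th i = #((th i).out) := (mk_out _).symm
        _ ≤ #(∀ i : S, (th i).out) :=
            mk_le_of_injective (f := fun x => Function.update d i x)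
              (Function.update_injective d i)
    obtain ⟨i0⟩ := hSne
    have hP0 : ℵ₀ ≤ #(∀ i : S, (th i).out) := (h0th i0).trans (hle i0)
    have hPS : #S ≤ #(∀ i : S, (th i).out) := (hSth i0).trans (hle i0)
    have h2 : lam ≤ #(∀ i : S, (th i).out) := by
      refine h1.trans ?_
      calc Cardinal.sum (fun i : S => #(Iio (i : lam.ord.ToType)))
          ≤ Cardinal.sum (fun _ : S => #(∀ i : S, (th i).out)) :=
            sum_le_sum _ _ fun i => ((le_max_left _ _).trans (hself i)).trans (hle i)
        _ = #S * #(∀ i : S, (th i).out) := sum_const' _ _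
        _ ≤ #(∀ i : S, (th i).out) * #(∀ i : S, (th i).out) := mul_le_mul_left hPS _
        _ = #(∀ i : S, (th i).out) := mul_eq_self hP0
    calc lam ^ #S ≤ #(∀ i : S, (th i).out) ^ #S := power_le_power_right h2
      _ = #(S → ∀ i : S, (th i).out) := power_def _ _
      _ = #(∀ i : S, S → (th i).out) := mk_congr (Equiv.piComm _)
      _ = Cardinal.prod (fun i : S => #(S → (th i).out)) := mk_pi _
      _ = Cardinal.prod (fun i : S => #((th i).out)) := by
          congr 1
          funext i
          rw [← power_def, mk_out, hthpow i]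
      _ = #(∀ i : S, (th i).out) := (mk_pi _).symm
  -- blocks
  have hB : ∀ i : S, #((S → (th i).out) × (th i).out) = th i := by
    intro i
    rw [mk_prod, Cardinal.lift_id, Cardinal.lift_id, mk_out, ← power_def, mk_out, hthpow i]
    exact mul_eq_self (h0th i)
  have hem : #(Σ i : S, (S → (th i).out) × (th i).out) ≤ #(lam.ord.ToType) := by
    rw [mk_sigma, mk_ord_toType]
    calc Cardinal.sum (fun i : S => #((S → (th i).out) × (th i).out))
        ≤ Cardinal.sum (fun _ : S => lam) := sum_le_sum _ _ fun i => (hB i).trans_le (hth i).le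
      _ = #S * lam := sum_const' _ _
      _ ≤ lam * lam := mul_le_mul_left hmu.le _
      _ = lam := mul_eq_self hinf
  obtain ⟨em⟩ := Cardinal.le_def _ _ |>.1 hem
  obtain ⟨k0⟩ := id hSne
  let F : (∀ i : S, (th i).out) → lam.ord.ToType → lam.ord.ToType := fun h =>
    Function.extend em (fun p => ((pre p.2.1 (h p.1) : S) : lam.ord.ToType))
      (fun _ => (k0 : lam.ord.ToType))
  have hF : ∀ h i b, F h (em ⟨i, b⟩) = ((pre b.1 (h i) : S) : lam.ord.ToType) := by
    intro h i b
    exact em.injective.extend_apply _ _ _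
  have hFC : ∀ h a, F h a ∈ C := by
    intro h a
    by_cases ha : ∃ p, em p = a
    · obtain ⟨p, rfl⟩ := ha
      show Function.extend em _ _ (em p) ∈ C
      rw [em.injective.extend_apply]
      exact hSC (Subtype.prop _)
    · show Function.extend em _ _ a ∈ C
      rw [Function.extend_apply' _ _ _ ha]
      exact hSC (Subtype.prop _)
  -- the key lemma
  have key : ∀ g : lam.ord.ToType → lam.ord.ToType,
      #{h : ∀ i : S, (th i).out | LeStar lam (F h) g} ≤ lam := by
    intro g
    let Z : ∀ i : S, S → Set (th i).out := fun i j =>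
      {x | #{b : (S → (th i).out) × (th i).out |
        g (em ⟨i, b⟩) < ((pre b.1 x : S) : lam.ord.ToType)} < th j}
    have hZ : ∀ i j, th j < th i → #(Z i j) ≤ #S := by
      intro i j hij
      by_contra hcon
      push Not at hcon
      obtain ⟨s⟩ := Cardinal.le_def _ _ |>.1 hcon.le
      let s' : S → (th i).out := fun k => (s k : (th i).out)
      have hs' : Function.Injective s' := Subtype.val_injective.comp s.injective
      let bad : S → Set ((S → (th i).out) × (th i).out) := fun k =>
        {b | g (em ⟨i, b⟩) < ((pre b.1 (s' k) : S) : lam.ord.ToType)}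
      have hbad : ∀ k, #(bad k) < th j := fun k => (s k).2
      have hcov : range (fun t : (th i).out => (s', t)) ⊆ ⋃ k, bad k := by
        rintro _ ⟨t, rfl⟩
        obtain ⟨k, hk⟩ := hcof (g (em ⟨i, (s', t)⟩))
        refine mem_iUnion.2 ⟨k, ?_⟩
        show g (em ⟨i, (s', t)⟩) < ((pre s' (s' k) : S) : lam.ord.ToType)
        rw [pre_apply hs' k]
        exact hk
      have h1 : th i ≤ #(range (fun t : (th i).out => (s', t))) := by
        rw [mk_range_eq _ (fun a b hab => (Prod.ext_iff.1 hab).2), mk_out]
      have h2 : th i ≤ th j := by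
        calc th i ≤ #(range (fun t : (th i).out => (s', t))) := h1
          _ ≤ #(⋃ k, bad k) := mk_le_mk_of_subset hcov
          _ ≤ Cardinal.sum (fun k => #(bad k)) := mk_iUnion_le_sum_mk
          _ ≤ Cardinal.sum (fun _ : S => th j) := sum_le_sum _ _ fun k => (hbad k).le
          _ = #S * th j := sum_const' _ _
          _ ≤ th j * th j := mul_le_mul_left (hSth j) _
          _ = th j := mul_eq_self (h0th j)
      exact absurd hij (not_lt.2 h2)
    let W : ∀ i : S, S → Set (th i).out := fun i j => {x | th j < th i → x ∈ Z i j}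
    have hW : ∀ i j, #(W i j) ≤ th j := by
      intro i j
      by_cases hij : th j < th i
      · have : W i j ⊆ Z i j := fun x hx => hx hij
        exact (mk_le_mk_of_subset this).trans ((hZ i j hij).trans (hSth j))
      · exact (mk_set_le _).trans (by rw [mk_out]; exact not_lt.1 hij)
    let H : S → Set (∀ i : S, (th i).out) := fun j => {h | ∀ i, h i ∈ W i j}
    have hH : ∀ j, #(H j) ≤ th j := by
      intro j
      have h1 : #(H j) ≤ #(∀ i : S, W i j) :=
        mk_le_of_injective (f := fun h : H j => fun i => (⟨h.1 i, h.2 i⟩ : W i j)) (by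
          intro a b hab
          apply Subtype.ext
          funext i
          exact Subtype.ext_iff.1 (congrFun hab i))
      calc #(H j) ≤ #(∀ i : S, W i j) := h1
        _ = Cardinal.prod (fun i : S => #(W i j)) := mk_pi _
        _ ≤ Cardinal.prod (fun _ : S => th j) := prod_le_prod _ _ fun i => hW i j
        _ = th j ^ #S := prod_const' _ _
        _ = th j := hthpow j
    have hsub : {h : ∀ i : S, (th i).out | LeStar lam (F h) g} ⊆ ⋃ j, H j := by
      intro h hh
      obtain ⟨j, hj⟩ := hsup _ hh
      refine mem_iUnion.2 ⟨j, fun i _ => ?_⟩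
      refine lt_of_le_of_lt ?_ hj
      refine mk_le_of_injective (f := fun b : {b : (S → (th i).out) × (th i).out |
        g (em ⟨i, b⟩) < ((pre b.1 (h i) : S) : lam.ord.ToType)} =>
          (⟨em ⟨i, b.1⟩, ?_⟩ : {a : lam.ord.ToType | g a < F h a})) ?_
      · show g (em ⟨i, b.1⟩) < F h (em ⟨i, b.1⟩)
        rw [hF]
        exact b.2
      · intro a b hab
        have h1 := em.injective (Subtype.ext_iff.1 hab)
        apply Subtype.ext
        have h2 := (Sigma.mk.inj_iff.1 h1).2
        exact eq_of_heq h2
    calc #{h : ∀ i : S, (th i).out | LeStar lam (F h) g} ≤ #(⋃ j, H j) := mk_le_mk_of_subset hsub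
      _ ≤ Cardinal.sum (fun j => #(H j)) := mk_iUnion_le_sum_mk
      _ ≤ Cardinal.sum (fun _ : S => lam) := sum_le_sum _ _ fun j => (hH j).trans (hth j).le
      _ = #S * lam := sum_const' _ _
      _ ≤ lam * lam := mul_le_mul_left hmu.le _
      _ = lam := mul_eq_self hinf
  -- conclusion
  by_contra hcon
  push Not at hcon
  have hcov : (Set.univ : Set (∀ i : S, (th i).out)) ⊆
      ⋃ g : D, {h : ∀ i : S, (th i).out | LeStar lam (F h) (g : lam.ord.ToType → _)} := by
    intro h _
    obtain ⟨g, hg, hfg⟩ := hD (F h) (hFC h)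
    exact mem_iUnion.2 ⟨⟨g, hg⟩, hfg⟩
  have h2lam : lam < lam ^ #S := by
    rw [hSc]
    exact lt_power_cof_ord hinf
  have h1 : lam ^ #S ≤ #D * lam := by
    calc lam ^ #S ≤ #(∀ i : S, (th i).out) := hprod
      _ = #(Set.univ : Set (∀ i : S, (th i).out)) := mk_univ.symm
      _ ≤ #(⋃ g : D, {h : ∀ i : S, (th i).out | LeStar lam (F h) (g : lam.ord.ToType → _)}) :=
          mk_le_mk_of_subset hcov
      _ ≤ Cardinal.sum (fun g : D =>
            #{h : ∀ i : S, (th i).out | LeStar lam (F h) (g : lam.ord.ToType → _)}) :=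
          mk_iUnion_le_sum_mk
      _ ≤ Cardinal.sum (fun _ : D => lam) := sum_le_sum _ _ fun g => key g
      _ = #D * lam := sum_const' _ _
  exact absurd (mul_lt_of_lt (hinf.trans h2lam.le) hcon h2lam) (not_lt.2 h1)

/-- Sets of small cardinality are bounded in a regular cardinal. -/
theorem exists_strict_bound {th : Cardinal.{u}} (hr : th.IsRegular) (A : Set th.ord.ToType)
    (hA : #A < th) : ∃ y, ∀ a ∈ A, a < y := by
  by_contra hcon
  push Not at hcon
  have hA' : IsCofinal A := fun x => by
    obtain ⟨a, ha, hxa⟩ := hcon x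
    exact ⟨a, ha, hxa⟩
  have h := Order.cof_le hA'
  rw [Ordinal.cof_toType, hr.cof_ord] at h
  exact absurd hA (not_lt.2 h)

/-- An unbounded subset of a regular cardinal `th` contains a copy of every well-order of
cardinality less than `th`. -/
theorem exists_embedding {th : Cardinal.{u}} (hr : th.IsRegular) {S : Type u} [LinearOrder S]
    [WellFoundedLT S] (hS : #S < th) (Z : Set th.ord.ToType) (hZ : IsCofinal Z) :
    ∃ z : S → th.ord.ToType, StrictMono z ∧ ∀ s, z s ∈ Z := by
  have h1 : typeLT S < th.ord := by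
    rw [lt_ord, card_type]
    exact hS
  have h2 : th.ord ≤ typeLT Z := by
    rw [ord_le, card_type]
    have h := Order.cof_le hZ
    rwa [Ordinal.cof_toType, hr.cof_ord] at h
  obtain ⟨f⟩ := type_le_iff'.1 (h1.le.trans h2)
  refine ⟨fun s => (f s : th.ord.ToType), ?_, fun s => (f s).2⟩
  intro a b hab
  exact f.map_rel_iff.2 hab

/-- A guessing function: `G x d` is an index in `S`, and for every unbounded set `Z` there is `d`
such that the indices `G z d`, `z ∈ Z`, are unbounded in `S`. -/
theorem exists_guess {th : Cardinal.{u}} (hr : th.IsRegular) {S : Type u} [LinearOrder S]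
    [WellFoundedLT S] [Nonempty S] [NoMaxOrder S] (hS : #S < th) :
    ∃ G : th.ord.ToType → th.ord.ToType → S, ∀ Z : Set th.ord.ToType, IsCofinal Z →
      ∃ (d : th.ord.ToType) (z : S → th.ord.ToType), (∀ s, z s ∈ Z) ∧ ∀ s, s < G (z s) d := by
  classical
  let P : th.ord.ToType → (S → th.ord.ToType) → Prop := fun d c =>
    StrictMono c ∧ (∀ s, c s < d) ∧ ∀ y < d, ∃ s, y ≤ c s
  let c : th.ord.ToType → S → th.ord.ToType := fun d =>
    if h : ∃ c, P d c then h.choose else fun _ => d
  have hc : ∀ d, (∃ c, P d c) → P d (c d) := by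
    intro d h
    show P d (if h : ∃ c, P d c then h.choose else fun _ => d)
    rw [dif_pos h]
    exact h.choose_spec
  let G : th.ord.ToType → th.ord.ToType → S := fun x d =>
    if h : {s : S | x < c d s}.Nonempty then wellFounded_lt.min _ h else Classical.arbitrary S
  refine ⟨G, fun Z hZ => ?_⟩
  obtain ⟨z, hz, hzZ⟩ := exists_embedding hr hS Z hZ
  obtain ⟨y, hy⟩ := exists_strict_bound hr (range z) (mk_range_le.trans_lt hS)
  have hne : {d : th.ord.ToType | ∀ s, z s < d}.Nonempty := ⟨y, fun s => hy _ ⟨s, rfl⟩⟩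
  let d := wellFounded_lt.min _ hne
  have hd : ∀ s, z s < d := wellFounded_lt.min_mem _ hne
  have hd2 : ∀ y < d, ∃ s, y ≤ z s := by
    intro y hy
    by_contra hcon
    push Not at hcon
    exact wellFounded_lt.not_lt_min _ (show y ∈ {d : th.ord.ToType | ∀ s, z s < d} from hcon) hy
  have hP : P d (c d) := hc d ⟨z, hz, hd, hd2⟩
  have hex : ∀ s : S, ∃ k : S, c d s ≤ z k := fun s => hd2 _ (hP.2.1 s)
  choose k hk using hex
  refine ⟨d, fun s => z (k s), fun s => hzZ _, fun s => ?_⟩
  have hne' : {t : S | z (k s) < c d t}.Nonempty := by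
    obtain ⟨t, ht⟩ := hP.2.2 _ (hd (k s))
    obtain ⟨t', ht'⟩ := exists_gt t
    exact ⟨t', ht.trans_lt (hP.1 ht')⟩
  have hG : G (z (k s)) d = wellFounded_lt.min _ hne' := by
    show (if h : {t : S | z (k s) < c d t}.Nonempty then wellFounded_lt.min _ h
      else Classical.arbitrary S) = _
    rw [dif_pos hne']
  rw [hG]
  by_contra hcon
  push Not at hcon
  have h1 : z (k s) < c d (wellFounded_lt.min _ hne') := wellFounded_lt.min_mem _ hne'
  have h2 : c d (wellFounded_lt.min _ hne') ≤ c d s := hP.1.monotone hcon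
  exact absurd (h1.trans_le h2) (not_lt.2 (hk s))

theorem exists_cofinalInProduct {lam : Cardinal.{u}} (hs : lam.IsSingular)
    {C : Set lam.ord.ToType} (hC : IsCofinal C)
    {D : Set (lam.ord.ToType → lam.ord.ToType)} (hD : Dominates lam C D)
    {I : Type u} (hI : #I ≤ lam) (th : I → Cardinal.{u}) (hreg : ∀ i, (th i).IsRegular)
    (hlow : ∀ i, lam.ord.cof < th i) (hup : ∀ i, th i < lam) :
    ∃ E : Set (∀ i, (th i).ord.ToType), CofinalInProduct lam th E ∧ #E ≤ #D := by
  classical
  have hinf : ℵ₀ ≤ lam := hs.aleph0_le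
  obtain ⟨S, hSC, hS, hSc⟩ := exists_small_cofinal hC
  have hcof : ∀ x : lam.ord.ToType, ∃ k : S, x < (k : lam.ord.ToType) :=
    exists_lt_of_isCofinal hinf hS
  obtain ⟨x0⟩ := nonempty_toType hinf
  obtain ⟨k0, -⟩ := hcof x0
  have : Nonempty S := ⟨k0⟩
  have : NoMaxOrder S := ⟨fun a => by
    obtain ⟨k, hk⟩ := hcof a
    exact ⟨k, hk⟩⟩
  have hSth : ∀ i, #S < th i := fun i => hSc ▸ hlow i
  choose G hG using fun i => exists_guess (hreg i) (hSth i)
  have hB : ∀ i : I, #((th i).ord.ToType × (th i).ord.ToType) = th i := by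
    intro i
    rw [mk_prod, Cardinal.lift_id, mk_ord_toType]
    exact mul_eq_self (hreg i).aleph0_le
  have hem : #(Σ i : I, (th i).ord.ToType × (th i).ord.ToType) ≤ #(lam.ord.ToType) := by
    rw [mk_sigma, mk_ord_toType]
    calc Cardinal.sum (fun i : I => #((th i).ord.ToType × (th i).ord.ToType))
        ≤ Cardinal.sum (fun _ : I => lam) := sum_le_sum _ _ fun i => (hB i).trans_le (hup i).le
      _ = #I * lam := sum_const' _ _
      _ ≤ lam * lam := mul_le_mul_left hI _
      _ = lam := mul_eq_self hinf
  obtain ⟨em⟩ := Cardinal.le_def _ _ |>.1 hem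
  let F : (∀ i : I, (th i).ord.ToType) → lam.ord.ToType → lam.ord.ToType := fun h =>
    Function.extend em (fun p => ((G p.1 (h p.1) p.2.1 : S) : lam.ord.ToType))
      (fun _ => (k0 : lam.ord.ToType))
  have hF : ∀ h i b, F h (em ⟨i, b⟩) = ((G i (h i) b.1 : S) : lam.ord.ToType) := by
    intro h i b
    exact em.injective.extend_apply _ _ _
  have hFC : ∀ h a, F h a ∈ C := by
    intro h a
    by_cases ha : ∃ p, em p = a
    · obtain ⟨p, rfl⟩ := ha
      show Function.extend em _ _ (em p) ∈ C
      rw [em.injective.extend_apply]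
      exact hSC (Subtype.prop _)
    · show Function.extend em _ _ a ∈ C
      rw [Function.extend_apply' _ _ _ ha]
      exact hSC (Subtype.prop _)
  let Z : (lam.ord.ToType → lam.ord.ToType) → ∀ i : I, Set (th i).ord.ToType := fun g i =>
    {x | #{b : (th i).ord.ToType × (th i).ord.ToType |
      g (em ⟨i, b⟩) < ((G i x b.1 : S) : lam.ord.ToType)} < th i}
  have hZ : ∀ g i, ∃ y : (th i).ord.ToType, ∀ x ∈ Z g i, x ≤ y := by
    intro g i
    by_contra hcon
    push Not at hcon
    have hcofZ : IsCofinal (Z g i) := fun y => by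
      obtain ⟨x, hx, hxy⟩ := hcon y
      exact ⟨x, hx, hxy.le⟩
    obtain ⟨d, z, hzZ, hz⟩ := hG i (Z g i) hcofZ
    let bad : S → Set ((th i).ord.ToType × (th i).ord.ToType) := fun k =>
      {b | g (em ⟨i, b⟩) < ((G i (z k) b.1 : S) : lam.ord.ToType)}
    have hbad : ∀ k, #(bad k) < th i := fun k => hzZ k
    have hcov : range (fun t : (th i).ord.ToType => (d, t)) ⊆ ⋃ k, bad k := by
      rintro _ ⟨t, rfl⟩
      obtain ⟨k, hk⟩ := hcof (g (em ⟨i, (d, t)⟩))
      refine mem_iUnion.2 ⟨k, ?_⟩
      show g (em ⟨i, (d, t)⟩) < ((G i (z k) d : S) : lam.ord.ToType)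
      exact hk.trans (hz k)
    have h1 : th i ≤ #(range (fun t : (th i).ord.ToType => (d, t))) := by
      rw [mk_range_eq _ (fun a b hab => (Prod.ext_iff.1 hab).2), mk_ord_toType]
    have h2 : #(⋃ k, bad k) < th i :=
      (mk_iUnion_le_sum_mk).trans_lt (sum_lt_of_isRegular (hreg i) (hSth i) hbad)
    exact absurd (h1.trans (mk_le_mk_of_subset hcov)) (not_le.2 h2)
  choose e he using hZ
  refine ⟨range (fun g : D => e g), ?_, mk_range_le⟩
  intro h
  obtain ⟨g, hg, hfg⟩ := hD (F h) (hFC h)
  refine ⟨e g, ⟨⟨g, hg⟩, rfl⟩, _, hfg, fun i hi => he g i _ ?_⟩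
  refine lt_of_le_of_lt ?_ hi
  refine mk_le_of_injective (f := fun b : {b : (th i).ord.ToType × (th i).ord.ToType |
    g (em ⟨i, b⟩) < ((G i (h i) b.1 : S) : lam.ord.ToType)} =>
      (⟨em ⟨i, b.1⟩, ?_⟩ : {a : lam.ord.ToType | g a < F h a})) ?_
  · show g (em ⟨i, b.1⟩) < F h (em ⟨i, b.1⟩)
    rw [hF]
    exact b.2
  · intro a b hab
    have h1 := em.injective (Subtype.ext_iff.1 hab)
    apply Subtype.ext
    have h2 := (Sigma.mk.inj_iff.1 h1).2
    exact eq_of_heq h2

theorem dominates_univ (lam : Cardinal.{u}) (hl : 0 < lam) (C : Set lam.ord.ToType) :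
    Dominates lam C Set.univ := by
  refine fun f _ => ⟨f, mem_univ f, ?_⟩
  have h : {a : lam.ord.ToType | f a < f a} = ∅ := by
    ext a; simp
  unfold LeStar
  rw [h, mk_eq_zero]
  exact hl

/-- A strong limit singular cardinal satisfies the closure hypothesis. -/
theorem closed_of_isStrongLimit {lam : Cardinal.{u}} (hl : lam.IsStrongLimit)
    (hs : lam.IsSingular) : ∀ mu < lam, mu ^ lam.ord.cof < lam := by
  intro mu hmu
  calc mu ^ lam.ord.cof ≤ (2 ^ mu) ^ lam.ord.cof := power_le_power_right (cantor mu).le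
    _ = 2 ^ (mu * lam.ord.cof) := (power_mul).symm
    _ < lam := hl.isStrongPrelimit (mul_lt_of_lt hs.aleph0_le hmu hs.cof_ord_lt)

/-- At a strong limit singular cardinal, `2 ^ lam ≤ lam ^ cf lam`. -/
theorem two_power_le {lam : Cardinal.{u}} (hl : lam.IsStrongLimit) (hs : lam.IsSingular) :
    2 ^ lam ≤ lam ^ lam.ord.cof := by
  have hinf : ℵ₀ ≤ lam := hs.aleph0_le
  obtain ⟨S, -, hS, hSc⟩ := exists_small_cofinal (lam := lam) (C := Set.univ)
    (fun x => ⟨x, mem_univ x, le_rfl⟩)
  have h1 : lam ≤ Cardinal.sum (fun i : S => #(Iio (i : lam.ord.ToType))) := by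
    have : (Set.univ : Set lam.ord.ToType) ⊆ ⋃ i : S, Iio (i : lam.ord.ToType) := by
      intro x _
      obtain ⟨k, hk⟩ := exists_lt_of_isCofinal hinf hS x
      exact mem_iUnion.2 ⟨k, hk⟩
    calc lam = #(lam.ord.ToType) := (mk_ord_toType lam).symm
      _ = #(Set.univ : Set lam.ord.ToType) := mk_univ.symm
      _ ≤ #(⋃ i : S, Iio (i : lam.ord.ToType)) := mk_le_mk_of_subset this
      _ ≤ Cardinal.sum (fun i : S => #(Iio (i : lam.ord.ToType))) := mk_iUnion_le_sum_mk
  calc (2 : Cardinal.{u}) ^ lam
      ≤ 2 ^ Cardinal.sum (fun i : S => #(Iio (i : lam.ord.ToType))) :=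
        power_le_power_left two_ne_zero h1
    _ = Cardinal.prod (fun i : S => 2 ^ #(Iio (i : lam.ord.ToType))) := power_sum _ _
    _ ≤ Cardinal.prod (fun _ : S => lam) := prod_le_prod _ _ fun i =>
        (hl.isStrongPrelimit (mk_Iio_toType_ord_lt _)).le
    _ = lam ^ #S := prod_const' _ _
    _ = lam ^ lam.ord.cof := by rw [hSc]

theorem le_dominatingNumberOn {lam : Cardinal.{u}} (hl : 0 < lam) (C : Set lam.ord.ToType)
    {c : Cardinal.{u}} (h : ∀ D, Dominates lam C D → c ≤ #D) : c ≤ dominatingNumberOn lam C := by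
  refine le_csInf ⟨_, Set.univ, dominates_univ lam hl C, rfl⟩ ?_
  rintro _ ⟨D, hD, rfl⟩
  exact h D hD

theorem lower_bound {lam : Cardinal.{u}} (hs : lam.IsSingular)
    (hcl : ∀ mu < lam, mu ^ lam.ord.cof < lam) {C : Set lam.ord.ToType} (hC : IsCofinal C) :
    lam ^ lam.ord.cof ≤ dominatingNumberOn lam C :=
  le_dominatingNumberOn hs.pos C fun _ hD => le_mk_of_dominates hs hcl hC hD

theorem strongLimit {lam : Cardinal.{u}} (hl : lam.IsStrongLimit) (hs : lam.IsSingular)
    {C : Set lam.ord.ToType} (hC : IsCofinal C) : dominatingNumberOn lam C = 2 ^ lam := by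
  apply le_antisymm
  · apply csInf_le (OrderBot.bddBelow _)
    refine ⟨Set.univ, dominates_univ lam hs.pos C, ?_⟩
    rw [mk_univ, ← power_def, mk_ord_toType, power_self_eq hs.aleph0_le]
  · exact (two_power_le hl hs).trans (lower_bound hs (closed_of_isStrongLimit hl hs) hC)

theorem pcf_bound {lam : Cardinal.{u}} (hs : lam.IsSingular) {C : Set lam.ord.ToType}
    (hC : IsCofinal C) {I : Type u} (hI : #I ≤ lam) (th : I → Cardinal.{u})
    (hth : ∀ i, (th i).IsRegular ∧ lam.ord.cof < th i ∧ th i < lam) :
    productCofinality lam th ≤ dominatingNumberOn lam C := by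
  refine le_dominatingNumberOn hs.pos C fun D hD => ?_
  obtain ⟨E, hE, hED⟩ := exists_cofinalInProduct hs hC hD hI th (fun i => (hth i).1)
    (fun i => (hth i).2.1) (fun i => (hth i).2.2)
  have h1 : productCofinality lam th ≤ #E :=
    csInf_le (OrderBot.bddBelow _) (Exists.intro E ⟨hE, rfl⟩)
  exact h1.trans hED

/-- (1) Negative answer to the question: the dominating number of a strong limit singular cardinal
`lam` is `2 ^ lam`.
(2) More generally, for every singular cardinal `lam` such that `mu ^ cf lam < lam` for every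
`mu < lam` the dominating number is at least `lam ^ cf lam`.
(3) For every singular cardinal `lam` the dominating number is at least the cofinality of every
product of at most `lam` regular cardinals between `cf lam` and `lam`, modulo the ideal of the
sets of indices on which the factors are bounded below `lam`.
All this already holds for the number of functions needed to dominate the functions with values
in a fixed cofinal subset of `lam`. -/
theorem result :
    (∀ lam : Cardinal.{u}, lam.IsStrongLimit → lam.IsSingular →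
      dominatingNumber lam = 2 ^ lam) ∧
    (∀ lam : Cardinal.{u}, lam.IsSingular → (∀ mu < lam, mu ^ lam.ord.cof < lam) →
      lam ^ lam.ord.cof ≤ dominatingNumber lam) ∧
    (∀ lam : Cardinal.{u}, lam.IsSingular → ∀ (I : Type u) (th : I → Cardinal.{u}), #I ≤ lam →
      (∀ i, (th i).IsRegular ∧ lam.ord.cof < th i ∧ th i < lam) →
      productCofinality lam th ≤ dominatingNumber lam) ∧
    (∀ lam : Cardinal.{u}, lam.IsSingular → ∀ C : Set lam.ord.ToType, IsCofinal C →
      (lam.IsStrongLimit → dominatingNumberOn lam C = 2 ^ lam) ∧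
      ((∀ mu < lam, mu ^ lam.ord.cof < lam) →
        lam ^ lam.ord.cof ≤ dominatingNumberOn lam C) ∧
      (∀ (I : Type u) (th : I → Cardinal.{u}), #I ≤ lam →
        (∀ i, (th i).IsRegular ∧ lam.ord.cof < th i ∧ th i < lam) →
        productCofinality lam th ≤ dominatingNumberOn lam C)) := by
  have hu : ∀ lam : Cardinal.{u}, IsCofinal (Set.univ : Set lam.ord.ToType) :=
    fun lam x => ⟨x, mem_univ x, le_rfl⟩
  exact ⟨fun lam hl hs => strongLimit hl hs (hu lam),
    fun lam hs hcl => lower_bound hs hcl (hu lam),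
    fun lam hs I th hI hth => pcf_bound hs (hu lam) hI th hth,
    fun lam hs C hC => ⟨fun hl => strongLimit hl hs hC, fun hcl => lower_bound hs hcl hC,
      fun I th hI hth => pcf_bound hs hC hI th hth⟩⟩

end Pool.Agent.Results.MP_ae46c1_lc.SingularPowerBound
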